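import Pool.Agent.C4N.Stm

set_option autoImplicit false

open scoped BigOperators Classical

noncomputable section

namespace Pool.Agent.C4N.H30

open Finset
open Pool.Agent.LAG (near Big)

variable {V : Type}

/-- the edges on cycles of length at most `L` -/
def shortE (R : SimpleGraph V) (L : ℕ) : SimpleGraph V where
  Adj x y := R.Adj x y ∧ ∃ (v : V) (c : R.Walk v v), c.IsCycle ∧ c.length ≤ L ∧ s(x, y) ∈ c.edges
  symm := ⟨fun x y h => ⟨h.1.symm, by
    obtain ⟨v, c, h1, h2, h3⟩ := h.2
    exact ⟨v, c, h1, h2, by rwa [Sym2.eq_swap]⟩⟩⟩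
  loopless := ⟨fun _ h => h.1.ne rfl⟩

/-- a cycle through the edge `x y` which starts with this edge -/
lemma exists_cycle_snd {R : SimpleGraph V} {L : ℕ} {x y : V} (h : (shortE R L).Adj x y) :
    ∃ c : R.Walk x x, c.IsCycle ∧ c.length ≤ L ∧ c.snd = y := by
  obtain ⟨hxy, v, c, h1, h2, h3⟩ := h
  have hx : x ∈ c.support := SimpleGraph.Walk.fst_mem_support_of_mem_edges c h3
  have h1' := h1.rotate hx
  have hlen : (c.rotate x hx).length = c.length := by
    rw [← SimpleGraph.Walk.length_edges, ← SimpleGraph.Walk.length_edges]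
    exact (c.rotate_edges x hx).perm.length_eq
  have h3' : s(x, y) ∈ (c.rotate x hx).edges := (c.rotate_edges x hx).mem_iff.2 h3
  have h4 : y ∈ (c.rotate x hx).toSubgraph.neighborSet x := by
    rw [SimpleGraph.Subgraph.mem_neighborSet, ← SimpleGraph.Subgraph.mem_edgeSet,
      SimpleGraph.Walk.mem_edges_toSubgraph]
    exact h3'
  rw [h1'.neighborSet_toSubgraph_endpoint] at h4
  rcases h4 with h4 | h4
  · exact ⟨c.rotate x hx, h1', by omega, h4.symm⟩
  · refine ⟨(c.rotate x hx).reverse, h1'.reverse, by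
      rw [SimpleGraph.Walk.length_reverse]; omega, ?_⟩
    rw [SimpleGraph.Walk.snd_reverse]
    exact h4.symm

variable [Fintype V]

/-- the closed sequences along the edges of `R` -/
def cycF (R : SimpleGraph V) (a : ℕ) (x : V) : Finset (Fin (a + 1) → V) :=
  (Sq V a x x).filter fun z => ∀ i : Fin a, R.Adj (z i.castSucc) (z i.succ)

lemma npw_ind (R : SimpleGraph V) (a : ℕ) (x : V) : npw (ind R) a x x = ((cycF R a x).card : ℝ) := by
  unfold npw cycF
  rw [Finset.card_filter, Nat.cast_sum]
  refine Finset.sum_congr rfl fun z _ => ?_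
  split_ifs with h
  · rw [Finset.prod_eq_one]
    · simp
    · intro i _
      rw [ind, if_pos (h i)]
  · push Not at h
    obtain ⟨i, hi⟩ := h
    rw [Finset.prod_eq_zero (Finset.mem_univ i)]
    · simp
    · rw [ind, if_neg hi]

lemma mem_cycF {R : SimpleGraph V} {x : V} (c : R.Walk x x) (hc : c.IsCycle) :
    (fun i : Fin (c.length + 1) => c.getVert i.1) ∈ cycF R c.length x := by
  unfold cycF Sq
  rw [Finset.mem_filter, Finset.mem_filter]
  refine ⟨⟨Finset.mem_univ _, by simp, by simp, ?_, ?_⟩, ?_⟩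
  · intro i j hi hj h
    have := hc.getVert_injOn' (x₁ := i.1) (x₂ := j.1) (by simp; omega) (by simp; omega) h
    exact Fin.ext this
  · intro i j hi hj h
    have := hc.getVert_injOn (x₁ := i.1) (x₂ := j.1) ⟨hi, by omega⟩ ⟨hj, by omega⟩ h
    exact Fin.ext this
  · intro i
    exact c.adj_getVert_succ i.2

/-- CYE: the edges on short cycles. -/
theorem cye_aux (V : Type) [Fintype V] (R : SimpleGraph V) (L : ℕ) (A κ Q : ℝ) (hA : 0 ≤ A)
    (hC : Cnt (ind R) L A κ Q) (hκ : 1 ≤ κ) (hQ : κ ^ L ≤ Q) : ∃ E : SimpleGraph V, E ≤ R ∧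
    (∀ v, (dg E v : ℝ) ≤ L * A) ∧ ∀ R' : SimpleGraph V, R' ≤ R → Big (R' \ E) L := by
  refine ⟨shortE R L, fun x y h => h.1, fun v => ?_, fun R' hR' v c hc => ?_⟩
  · -- the degree
    have hQ1 : 1 ≤ Q := le_trans (one_le_pow₀ hκ) hQ
    have hsub : (shortE R L).neighborSet v ⊆
        (((Finset.Icc 3 L).biUnion fun a => (cycF R a v).image fun z => z 1 : Finset V) : Set V) := by
      intro y hy
      obtain ⟨c, h1, h2, h3⟩ := exists_cycle_snd hy
      rw [Finset.mem_coe, Finset.mem_biUnion]
      refine ⟨c.length, Finset.mem_Icc.2 ⟨h1.three_le_length, h2⟩, ?_⟩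
      rw [Finset.mem_image]
      refine ⟨_, mem_cycF c h1, ?_⟩
      have h4 := h1.three_le_length
      have : ((1 : Fin (c.length + 1)) : ℕ) = 1 := by
        rw [Fin.val_one']
        exact Nat.mod_eq_of_lt (by omega)
      show c.getVert ((1 : Fin (c.length + 1)) : ℕ) = y
      rw [this]
      exact h3
    have h1 : (dg (shortE R L) v : ℝ) ≤ ∑ a ∈ Finset.Icc 3 L, ((cycF R a v).card : ℝ) := by
      have h2 : dg (shortE R L) v ≤ ∑ a ∈ Finset.Icc 3 L, (cycF R a v).card := by
        unfold dg
        calc ((shortE R L).neighborSet v).ncard ≤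
            (((Finset.Icc 3 L).biUnion fun a => (cycF R a v).image fun z => z 1 : Finset V) :
              Set V).ncard := Set.ncard_le_ncard hsub (Set.toFinite _)
          _ = ((Finset.Icc 3 L).biUnion fun a => (cycF R a v).image fun z => z 1).card :=
              Set.ncard_coe_finset _
          _ ≤ ∑ a ∈ Finset.Icc 3 L, ((cycF R a v).image fun z => z 1).card :=
              Finset.card_biUnion_le
          _ ≤ ∑ a ∈ Finset.Icc 3 L, (cycF R a v).card :=
              Finset.sum_le_sum fun a _ => Finset.card_image_le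
      exact_mod_cast h2
    have h3 : ∑ a ∈ Finset.Icc 3 L, ((cycF R a v).card : ℝ) ≤ ∑ _a ∈ Finset.Icc 3 L, A := by
      refine Finset.sum_le_sum fun a ha => ?_
      rw [Finset.mem_Icc] at ha
      rw [← npw_ind]
      have h4 := hC a v v (by omega) ha.2 (Or.inr ha.1)
      have h5 : κ ^ a / Q ≤ 1 := by
        rw [div_le_one (by linarith)]
        exact le_trans (pow_le_pow_right₀ hκ ha.2) hQ
      rw [max_eq_left h5, mul_one] at h4
      exact h4
    refine h1.trans (h3.trans ?_)
    rw [Finset.sum_const, nsmul_eq_mul]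
    refine mul_le_mul_of_nonneg_right ?_ hA
    have : (Finset.Icc 3 L).card ≤ L := by rw [Nat.card_Icc]; omega
    exact_mod_cast this
  · -- the girth
    by_contra hcon
    push Not at hcon
    have hle : R' \ shortE R L ≤ R := le_trans sdiff_le hR'
    have hadj : (R' \ shortE R L).Adj v c.snd := c.adj_snd hc.not_nil
    have hmem : s(v, c.snd) ∈ c.edges := by
      have h4 : c.snd ∈ c.toSubgraph.neighborSet v := by
        rw [hc.neighborSet_toSubgraph_endpoint]
        exact Or.inl rfl
      rwa [SimpleGraph.Subgraph.mem_neighborSet, ← SimpleGraph.Subgraph.mem_edgeSet,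
        SimpleGraph.Walk.mem_edges_toSubgraph] at h4
    refine hadj.2 ⟨hle hadj, v, c.mapLe hle, hc.mapLe hle, ?_, ?_⟩
    · rw [SimpleGraph.Walk.length_map]
      exact hcon
    · rw [SimpleGraph.Walk.edges_mapLe_eq_edges]
      exact hmem

/-- CYE: the edges on short cycles (cycles with at most `L` edges). -/
theorem cye : CYEStmt := fun V _ R L A κ Q hA hC hκ hQ => cye_aux V R L A κ Q hA hC hκ hQ

end Pool.Agent.C4N.H30
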